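import Mathlib

set_option autoImplicit false

namespace Pool.Agent.MP_671186_gt

open Set Filter Topology Metric

variable {M : Type} [MetricSpace M] {N : Type}

/-- The labels whose fibre has `x` in its closure. -/
def val (f : M → N) (x : M) : Set N := {n | ∃ᶠ y in 𝓝 x, f y = n}

/-- The labelling takes finitely many values near `x`. -/
def Reg (f : M → N) (x : M) : Prop := ∃ F : Set N, F.Finite ∧ ∀ᶠ y in 𝓝 x, f y ∈ F

lemma mem_val {f : M → N} {x : M} {n : N} : n ∈ val f x ↔ x ∈ closure (f ⁻¹' {n}) := by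
  rw [mem_closure_iff_frequently]
  rfl

lemma val_congr {f g : M → N} {x : M} (h : f =ᶠ[𝓝 x] g) : val f x = val g x := by
  ext n
  constructor
  · intro h1
    exact (h1.and_eventually h).mono fun y hy => hy.2 ▸ hy.1
  · intro h1
    exact (h1.and_eventually h).mono fun y hy => hy.2.trans hy.1

lemma reg_congr {f g : M → N} {x : M} (h : f =ᶠ[𝓝 x] g) (hr : Reg g x) : Reg f x := by
  obtain ⟨F, h1, h2⟩ := hr
  exact ⟨F, h1, (h2.and h).mono fun y hy => hy.2 ▸ hy.1⟩

lemma isClosed_val (f : M → N) (n : N) : IsClosed {x | n ∈ val f x} := by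
  have : {x | n ∈ val f x} = closure (f ⁻¹' {n}) := by
    ext x; exact mem_val
  rw [this]; exact isClosed_closure

lemma self_mem_val (f : M → N) (x : M) : f x ∈ val f x :=
  mem_val.2 (subset_closure rfl)

lemma isOpen_reg (f : M → N) : IsOpen {x | Reg f x} := by
  rw [isOpen_iff_eventually]
  rintro x ⟨F, h1, h2⟩
  exact h2.eventually_nhds.mono fun y hy => ⟨F, h1, hy⟩

lemma val_subset {f : M → N} {x : M} {F : Set N} (h : ∀ᶠ y in 𝓝 x, f y ∈ F) : val f x ⊆ F := by
  intro n hn
  obtain ⟨y, h1, h2⟩ := (hn.and_eventually h).exists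
  exact h1 ▸ h2

lemma val_finite {f : M → N} {x : M} (h : Reg f x) : (val f x).Finite := by
  obtain ⟨F, h1, h2⟩ := h
  exact h1.subset (val_subset h2)

lemma val_usc {f : M → N} {x : M} (h : Reg f x) : ∀ᶠ y in 𝓝 x, val f y ⊆ val f x := by
  obtain ⟨F, h1, h2⟩ := h
  have h3 : ∀ᶠ y in 𝓝 x, ∀ n ∈ F, n ∉ val f x → n ∉ val f y := by
    rw [eventually_all_finite h1]
    intro n _
    by_cases hn : n ∈ val f x
    · exact Eventually.of_forall fun y h => absurd hn h
    · have : {y | n ∈ val f y}ᶜ ∈ 𝓝 x := (isClosed_val f n).isOpen_compl.mem_nhds hn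
      exact mem_of_superset this fun y hy _ => hy
  filter_upwards [h2.eventually_nhds, h3] with y a1 a2 n hn
  by_contra hc
  exact a2 n (val_subset a1 hn) hc hn

theorem absorb [CompactSpace M] (g : M → N) (m : ℕ) (ho : ∀ x, (val g x).encard ≤ m) (n : N)
    {W O : Set M} (hW : IsClosed W) (hO : IsOpen O) (hWO : W ⊆ O) (hn : ∀ x ∈ W, n ∈ val g x)
    (hr : ∀ x ∈ O, x ∉ W → Reg g x) :
    ∃ g' : M → N, (∀ x, g' x = g x ∨ (x ∈ O ∧ g' x = n)) ∧ (∀ x, (val g' x).encard ≤ m) ∧
      ∀ x, ¬ Reg g' x → ¬ Reg g x ∧ x ∉ W := by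
  classical
  obtain ⟨O1, hO1, hW1, h1O⟩ := normal_exists_closure_subset hW hO hWO
  have hR : IsCompact (closure O1 \ O1) := (isClosed_closure.sdiff hO1).isCompact
  have hRr : ∀ x ∈ closure O1 \ O1, Reg g x := fun x hx => hr x (h1O hx.1) fun h => hx.2 (hW1 h)
  have hI : (val g '' (closure O1 \ O1)).Finite := by
    obtain ⟨t, ht1, ht2⟩ := hR.elim_nhds_subcover (fun x => {y | val g y ⊆ val g x})
      fun x hx => val_usc (hRr x hx)
    refine (t.finite_toSet.biUnion (t := fun x => {I | I ⊆ val g x})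
      fun x hx => (val_finite (hRr x (ht1 x hx))).finite_subsets).subset ?_
    rintro I ⟨y, hy, rfl⟩
    obtain ⟨x, hx, hyx⟩ := mem_iUnion₂.1 (ht2 hy)
    exact mem_biUnion hx hyx
  have heq : ∀ (I : Set N) (x : M), I.encard = m → I ⊆ val g x → I = val g x := by
    intro I x h1 h2
    exact (finite_of_encard_eq_coe h1).eq_of_subset_of_encard_le h2 (h1 ▸ ho x)
  let Bad : M → Prop := fun x => n ∉ val g x ∧ (val g x).encard = m
  let Fr : Set M := {x | Bad x ∧ val g x ∈ val g '' (closure O1 \ O1)}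
  have hFr : IsClosed Fr := by
    have : Fr = ⋃ I ∈ {I ∈ val g '' (closure O1 \ O1) | n ∉ I ∧ I.encard = m},
        ⋂ k ∈ I, {x | k ∈ val g x} := by
      ext x
      constructor
      · rintro ⟨h1, h2⟩
        exact mem_biUnion (x := val g x) ⟨h2, h1⟩ (mem_iInter₂.2 fun k hk => hk)
      · intro h
        obtain ⟨I, ⟨h1, h2, h3⟩, h4⟩ := mem_iUnion₂.1 h
        have e := heq I x h3 fun k hk => mem_iInter₂.1 h4 k hk
        subst e
        exact ⟨⟨h2, h3⟩, h1⟩
    rw [this]
    exact (hI.subset (sep_subset _ _)).isClosed_biUnion fun I _ =>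
      isClosed_biInter fun k _ => isClosed_val g k
  let K : Set M := W ∪ {x ∈ closure O1 | Bad x ∧ x ∉ Fr}
  have hK1 : K ⊆ O1 \ Fr := by
    rintro x (hx | ⟨h1, h2, h3⟩)
    · exact ⟨hW1 hx, fun h => h.1.1 (hn x hx)⟩
    · refine ⟨?_, h3⟩
      by_contra hc
      exact h3 ⟨h2, x, ⟨h1, hc⟩, rfl⟩
  have hK : IsClosed K := by
    refine isClosed_of_closure_subset fun x hx => ?_
    by_cases hxW : x ∈ W
    · exact Or.inl hxW
    · have h1 : x ∈ closure O1 := closure_mono (hK1.trans sdiff_subset) hx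
      have h2 := val_usc (hr x (h1O h1) hxW)
      have h3 : ∀ᶠ y in 𝓝 x, y ∉ W := hW.isOpen_compl.mem_nhds hxW
      obtain ⟨y, hy, h4, h5⟩ :=
        ((mem_closure_iff_frequently.1 hx).and_eventually (h2.and h3)).exists
      obtain ⟨-, h6, h7⟩ := hy.resolve_left h5
      have e := heq _ x h6.2 h4
      refine Or.inr ⟨h1, ⟨e ▸ h6.1, e ▸ h6.2⟩, fun h => h7 ⟨h6, e ▸ h.2⟩⟩
  obtain ⟨Z, hZ, hKZ, hZO⟩ := normal_exists_closure_subset hK (hO1.sdiff hFr) hK1
  let g' : M → N := fun x => if x ∈ Z then n else g x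
  have hin : ∀ x ∈ Z, ∀ᶠ y in 𝓝 x, g' y ∈ ({n} : Set N) := by
    intro x hx
    filter_upwards [hZ.mem_nhds hx] with y hy
    exact if_pos hy
  have hor : ∀ x, g' x = g x ∨ (x ∈ Z ∧ g' x = n) := by
    intro x
    by_cases hx : x ∈ Z
    · exact Or.inr ⟨hx, if_pos hx⟩
    · exact Or.inl (if_neg hx)
  refine ⟨g', fun x => (hor x).imp id fun h =>
    ⟨h1O (subset_closure (hZO (subset_closure h.1)).1), h.2⟩, fun x => ?_, fun x hx => ⟨?_, ?_⟩⟩
  · by_cases hx : x ∈ Z
    · refine (encard_le_encard (val_subset (hin x hx))).trans ?_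
      rw [encard_singleton]
      exact (one_le_encard_iff_nonempty.2 ⟨_, self_mem_val g x⟩).trans (ho x)
    by_cases hx' : x ∈ closure Z
    · have h1 : val g' x ⊆ insert n (val g x) := by
        intro k hk
        by_cases hkn : k = n
        · exact Or.inl hkn
        · refine Or.inr (Frequently.mono hk fun y hy => ?_)
          rcases hor y with h | h
          · exact h ▸ hy
          · exact absurd (hy.symm.trans h.2) hkn
      refine (encard_le_encard h1).trans ?_
      by_cases h2 : n ∈ val g x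
      · rw [insert_eq_of_mem h2]; exact ho x
      · have h3 : (val g x).encard ≠ m := fun h => hx (hKZ (Or.inr
          ⟨subset_closure (hZO hx').1, ⟨h2, h⟩, (hZO hx').2⟩))
        exact (encard_insert_le _ _).trans (Order.add_one_le_of_lt (lt_of_le_of_ne (ho x) h3))
    · have h1 : g' =ᶠ[𝓝 x] g := by
        filter_upwards [isClosed_closure.isOpen_compl.mem_nhds hx'] with y hy
        exact if_neg fun h => hy (subset_closure h)
      rw [val_congr h1]; exact ho x
  · rintro ⟨F, h1, h2⟩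
    refine hx ⟨insert n F, h1.insert n, h2.mono fun y hy => ?_⟩
    rcases hor y with h | h
    · exact Or.inr (h ▸ hy)
    · exact Or.inl h.2
  · intro h
    exact hx ⟨{n}, finite_singleton n, hin x (hKZ (Or.inl h))⟩

end Pool.Agent.MP_671186_gt
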