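import Mathlib

set_option autoImplicit false

namespace Pool.Agent.MP_671186_gt

open Set

/-- distance to the nearest integer -/
noncomputable def sc_t (a : ℝ) : ℝ := |a - round a|

theorem sc_le (a : ℝ) (z : ℤ) : sc_t a ≤ |a - z| := round_le a z

theorem sc_cont : Continuous sc_t := by
  refine (LipschitzWith.of_le_add fun a b => (sc_le a (round b)).trans ?_).continuous
  rw [sc_t, Real.dist_eq, add_comm]
  exact abs_sub_le _ _ _

theorem sc_gap {d r : ℕ} (hr : 1 ≤ r) (x : Fin d → ℝ) {u : ℝ} (h0 : 0 < u) (h1 : u ≤ 1 / 2)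
    (h : ∀ J : Finset (Fin d), J.card = r → u ≤ (∑ i ∈ J, sc_t (x i)) / r) :
    ∃ k : ℕ, k < r ∧ ∀ (i : Fin d) (z : ℤ), ¬ (u * k / r < x i - z ∧ x i - z < u * (k + 1) / r) := by
  classical
  have hr' : (0 : ℝ) < r := by exact_mod_cast hr
  by_contra c
  have c' : ∀ k : Fin r, ∃ (i : Fin d) (z : ℤ),
      u * (k : ℕ) / r < x i - z ∧ x i - z < u * ((k : ℕ) + 1) / r := fun k => by
    by_contra e
    exact c ⟨k, k.2, fun i z a => e ⟨i, z, a⟩⟩
  choose i z h2 h3 using c'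
  have p : ∀ k, 0 < x (i k) - z k := fun k => lt_of_le_of_lt (by positivity) (h2 k)
  have q : ∀ k, x (i k) - z k < u := fun k => (h3 k).trans_le (by
    rw [div_le_iff₀ hr']
    have : ((k : ℕ) : ℝ) + 1 ≤ r := by exact_mod_cast k.2
    exact mul_le_mul_of_nonneg_left this h0.le)
  have le : ∀ k l, i k = i l → (k : ℕ) ≤ l := fun k l e => by
    have a1 := p k
    have a2 := q k
    have a3 := p l
    have a4 := q l
    have a5 := h2 k
    have a6 := h3 l
    rw [e] at a1 a2 a5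
    have b1 : ((z k - z l : ℤ) : ℝ) < (1 : ℤ) := by push_cast; linarith
    have b2 : ((-1 : ℤ) : ℝ) < (z k - z l : ℤ) := by push_cast; linarith
    have b3 : z k = z l := by
      have := Int.cast_lt.1 b1
      have := Int.cast_lt.1 b2
      omega
    rw [b3] at a5
    have b4 := lt_of_mul_lt_mul_left ((div_lt_div_iff_of_pos_right hr').1 (a5.trans a6)) h0.le
    have b5 : (k : ℕ) < l + 1 := by exact_mod_cast b4
    omega
  have inj : Function.Injective i := fun k l e => Fin.ext (le_antisymm (le k l e) (le l k e.symm))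
  have a := h (Finset.univ.image i) (by simp [Finset.card_image_of_injective _ inj])
  rw [Finset.sum_image fun k _ l _ e => inj e, le_div_iff₀ hr'] at a
  have b : ∑ k : Fin r, sc_t (x (i k)) < ∑ _k : Fin r, u :=
    Finset.sum_lt_sum_of_nonempty ⟨⟨0, hr⟩, Finset.mem_univ _⟩ fun k _ =>
      (sc_le _ (z k)).trans_lt (by rw [abs_of_pos (p k)]; exact q k)
  simp only [Finset.sum_const, Finset.card_univ, Fintype.card_fin, nsmul_eq_mul] at b
  linarith

theorem su_col {d r : ℕ} (hr : 1 ≤ r) (hrd : r ≤ d) : ∃ (u : (Fin d → ℝ) → ℝ) (col : (Fin d → ℝ) → ℕ), Continuous u ∧ (∀ x, 0 ≤ u x ∧ u x ≤ 1 / 2) ∧ (∀ x, u x = 0 → ∃ J : Finset (Fin d), J.card = r ∧ ∀ i ∈ J, ∃ z : ℤ, x i = z) ∧ ∀ x, 0 < u x → col x < r ∧ ∀ (i : Fin d) (z : ℤ), ¬ (u x * col x / r < x i - z ∧ x i - z < u x * (col x + 1) / r) := by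
  classical
  have hr' : (0 : ℝ) < r := by exact_mod_cast hr
  have ne : (Finset.powersetCard r (Finset.univ : Finset (Fin d))).Nonempty :=
    Finset.powersetCard_nonempty.2 (by simpa using hrd)
  let u : (Fin d → ℝ) → ℝ := fun x =>
    (Finset.powersetCard r Finset.univ).inf' ne fun J => (∑ i ∈ J, sc_t (x i)) / r
  have at' : ∀ x, ∃ J : Finset (Fin d), J.card = r ∧ u x = (∑ i ∈ J, sc_t (x i)) / r := fun x => by
    obtain ⟨J, hJ, e⟩ := Finset.exists_mem_eq_inf' ne fun J => (∑ i ∈ J, sc_t (x i)) / (r : ℝ)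
    exact ⟨J, (Finset.mem_powersetCard.1 hJ).2, e⟩
  have bd : ∀ x, 0 ≤ u x ∧ u x ≤ 1 / 2 := fun x => by
    obtain ⟨J, hJ, e⟩ := at' x
    rw [e]
    refine ⟨div_nonneg (Finset.sum_nonneg fun i _ => abs_nonneg _) hr'.le, ?_⟩
    rw [div_le_iff₀ hr', mul_comm, ← hJ, ← nsmul_eq_mul]
    exact Finset.sum_le_card_nsmul _ _ _ fun i _ => abs_sub_round _
  have ex : ∀ x, ∃ k : ℕ, 0 < u x → k < r ∧ ∀ (i : Fin d) (z : ℤ),
      ¬ (u x * k / r < x i - z ∧ x i - z < u x * (k + 1) / r) := fun x => by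
    by_cases c : 0 < u x
    · obtain ⟨k, hk⟩ := sc_gap hr x c (bd x).2 fun J hJ =>
        Finset.inf'_le (fun J => (∑ i ∈ J, sc_t (x i)) / (r : ℝ))
          (Finset.mem_powersetCard.2 ⟨Finset.subset_univ _, hJ⟩)
      exact ⟨k, fun _ => hk⟩
    · exact ⟨0, fun a => absurd a c⟩
  choose col hc using ex
  refine ⟨u, col, ?_, bd, fun x hx => ?_, hc⟩
  · exact Continuous.finset_inf'_apply ne fun J _ =>
      (continuous_finsetSum J fun i _ => sc_cont.comp (continuous_apply i)).div_const _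
  · obtain ⟨J, hJ, e⟩ := at' x
    rw [hx, eq_comm, div_eq_zero_iff, or_iff_left hr'.ne',
      Finset.sum_eq_zero_iff_of_nonneg fun i _ => abs_nonneg _] at e
    exact ⟨J, hJ, fun i hi => ⟨round (x i), sub_eq_zero.1 (abs_eq_zero.1 (e i hi))⟩⟩

end Pool.Agent.MP_671186_gt
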