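import Pool.Agent.MP_671186_gt.Sing

set_option autoImplicit false

namespace Pool.Agent.MP_671186_gt

open Set

theorem dimLT_mono {M : Type} [TopologicalSpace M] :
    ∀ (r : ℕ) {S S' : Set M}, DimLT r S → S' ⊆ S → DimLT r S' := by
  intro r
  induction r with
  | zero =>
    intro S S' h hs
    have h' : S = ∅ := h
    exact subset_eq_empty hs h'
  | succ r ih =>
    intro S S' h hs A B hA hB hAB
    obtain ⟨U, V, hU, hV, hUV, hAU, hBV, hr⟩ := h A B hA hB hAB
    exact ⟨U, V, hU, hV, hUV, hAU, hBV, ih hr (sdiff_subset_sdiff_left hs)⟩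

/-- rounding down to a shifted grid -/
noncomputable def sf_g {d : ℕ} (θ h : ℝ) (x : Fin d → ℝ) : Fin d → ℝ :=
  fun i => θ + h * (⌊(x i - θ) / h⌋ : ℤ)

theorem sf_dist {d : ℕ} (θ : ℝ) {h : ℝ} (hh : 0 < h) (x : Fin d → ℝ) :
    dist (sf_g θ h x) x ≤ h := by
  refine (dist_pi_le_iff hh.le).2 fun i => ?_
  have h1 := (le_div_iff₀ hh).1 (Int.floor_le ((x i - θ) / h))
  have h2 := (div_lt_iff₀ hh).1 (Int.lt_floor_add_one ((x i - θ) / h))
  rw [Real.dist_eq, abs_le]
  unfold sf_g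
  constructor <;> nlinarith

theorem sf_loc {d : ℕ} (θ : ℝ) {h : ℝ} (hh : 0 < h) (x : Fin d → ℝ)
    (hx : ∀ (i : Fin d) (z : ℤ), θ + h * z ≠ x i) : ∀ᶠ y in nhds x, sf_g θ h y = sf_g θ h x := by
  have h1 : ∀ i : Fin d, ∀ᶠ y : Fin d → ℝ in nhds x, ⌊(y i - θ) / h⌋ = ⌊(x i - θ) / h⌋ := by
    intro i
    have hc : Continuous fun y : Fin d → ℝ => (y i - θ) / h := by fun_prop
    have h2 : ((⌊(x i - θ) / h⌋ : ℤ) : ℝ) < (x i - θ) / h := by
      refine lt_of_le_of_ne (Int.floor_le _) fun e => hx i ⌊(x i - θ) / h⌋ ?_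
      rw [e]
      field_simp
      ring
    filter_upwards [(hc.tendsto x).eventually (Ioo_mem_nhds h2 (Int.lt_floor_add_one _))]
      with y hy
    exact Int.floor_eq_iff.2 ⟨hy.1.le, hy.2⟩
  filter_upwards [Filter.eventually_all.2 h1] with y hy
  funext i
  unfold sf_g
  rw [hy i]

theorem sf_theta {Λ : Set ℝ} (hΛ : Λ.Countable) (h : ℝ) : ∃ θ : ℝ, ∀ z : ℤ, θ + h * z ∉ Λ := by
  have h1 : (image2 (fun (l : ℝ) (z : ℤ) => l - h * z) Λ univ).Countable :=
    hΛ.image2 countable_univ _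
  by_contra hne
  refine Cardinal.not_countable_real (h1.mono fun θ _ => ?_)
  by_contra hθ
  refine hne ⟨θ, fun z hz => hθ ⟨_, hz, z, trivial, ?_⟩⟩
  simp

theorem dimLT_flat {d : ℕ} (Q : Set (Fin d → ℝ)) (hQ : IsCompact Q) : ∀ (t r : ℕ), r + t = d + 1 → ∀ Λ : Set ℝ, Λ.Countable → DimLT t (Q ∩ {x | ∃ J : Finset (Fin d), J.card = r ∧ ∀ i ∈ J, x i ∈ Λ}) := by
  classical
  intro t
  induction t with
  | zero =>
    intro r hr Λ _
    refine eq_empty_of_forall_notMem ?_
    rintro x ⟨-, J, hJ, -⟩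
    have := Finset.card_le_univ J
    rw [Fintype.card_fin] at this
    omega
  | succ t ih =>
    intro r hr Λ hΛ A B hA hB hAB
    obtain ⟨δ, hδ, hd⟩ := (hAB.mono_left (inter_subset_right (s := Q))).exists_thickenings
      (hQ.inter_right hA) hB
    have hh : 0 < δ / 3 := by positivity
    obtain ⟨θ, hθ⟩ := sf_theta hΛ (δ / 3)
    let P : Set (Fin d → ℝ) := {x | sf_g θ (δ / 3) x ∈ Metric.thickening δ (Q ∩ A)}
    have hnear : ∀ (S : Set (Fin d → ℝ)), ∀ a ∈ S, ∀ y ∈ Metric.ball a (δ / 3),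
        sf_g θ (δ / 3) y ∈ Metric.thickening δ S := by
      intro S a ha y hy
      refine Metric.mem_thickening_iff.2 ⟨a, ha, ?_⟩
      have h1 := dist_triangle (sf_g θ (δ / 3) y) y a
      have h2 := sf_dist θ hh y
      have h3 := Metric.mem_ball.1 hy
      linarith
    have hAP : Q ∩ A ⊆ interior P := fun a ha =>
      mem_interior_iff_mem_nhds.2 (Filter.mem_of_superset (Metric.ball_mem_nhds a hh)
        fun y hy => hnear _ a ha y hy)
    have hBP : B ⊆ interior Pᶜ := fun b hb =>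
      mem_interior_iff_mem_nhds.2 (Filter.mem_of_superset (Metric.ball_mem_nhds b hh)
        fun y hy hyP => disjoint_left.1 hd hyP (hnear _ b hb y hy))
    obtain ⟨W, W', hW, hW', hAW, hBW, hWW⟩ := normal_separation
      (hA.sdiff isOpen_interior : IsClosed (A \ interior P)) (hQ.isClosed.union hB)
      (disjoint_left.2 fun x hx hx' => hx'.elim (fun h => hx.2 (hAP ⟨h, hx.1⟩))
        fun h => disjoint_left.1 hAB hx.1 h)
    refine ⟨interior P ∪ W, interior Pᶜ ∩ W', isOpen_interior.union hW,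
      isOpen_interior.inter hW', ?_, ?_, fun b hb => ⟨hBP hb, hBW (Or.inr hb)⟩, ?_⟩
    · refine disjoint_left.2 fun x hx hx' => hx.elim (fun h => ?_) fun h => ?_
      · exact interior_subset hx'.1 (interior_subset h)
      · exact disjoint_left.1 hWW h hx'.2
    · intro a ha
      by_cases h : a ∈ interior P
      · exact Or.inl h
      · exact Or.inr (hAW ⟨ha, h⟩)
    · refine dimLT_mono t (ih (r + 1) (by omega) (Λ ∪ range fun z : ℤ => θ + δ / 3 * z)
        (hΛ.union (countable_range _))) ?_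
      rintro x ⟨⟨hxQ, J, hJ, hJΛ⟩, hx⟩
      have hex : ∃ (i : Fin d) (z : ℤ), θ + δ / 3 * z = x i := by
        by_contra hne
        have h1 := sf_loc θ hh x fun i z e => hne ⟨i, z, e⟩
        by_cases h : x ∈ P
        · refine hx (Or.inl (Or.inl (mem_interior_iff_mem_nhds.2 (h1.mono fun y hy => ?_))))
          rw [hy]
          exact h
        · refine hx (Or.inr ⟨mem_interior_iff_mem_nhds.2 (h1.mono fun y hy hy' => h ?_),
            hBW (Or.inl hxQ)⟩)
          change sf_g θ (δ / 3) x ∈ Metric.thickening δ (Q ∩ A)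
          rw [← hy]
          exact hy'
      obtain ⟨i, z, hz⟩ := hex
      have hi : i ∉ J := fun h => hθ z (hz ▸ hJΛ i h)
      refine ⟨hxQ, insert i J, by rw [Finset.card_insert_of_notMem hi, hJ], fun j hj => ?_⟩
      rcases Finset.mem_insert.1 hj with rfl | h
      · exact Or.inr ⟨z, hz⟩
      · exact Or.inl (hJΛ j h)

end Pool.Agent.MP_671186_gt
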