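import Pool.Agent.MP_671186_gt.SAbs

set_option autoImplicit false

namespace Pool.Agent.MP_671186_gt

open Set Filter Topology Metric

variable {M : Type} [MetricSpace M] {N : Type}

/-- `g` is an admissible modification of `f` supported in `O`. -/
def Mod (f : M → N) (G : N → Set M) (m : ℕ) (ε : ℝ) (O : Set M) (g : M → N) : Prop :=
  (∀ x, x ∉ O → g x = f x) ∧ (∀ x, (val g x).encard ≤ m) ∧ (∀ x, x ∈ G (g x)) ∧
    ∀ x, ∃ y, dist x y < ε ∧ f y = g x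

/-- `W` is closed and open in the singular set of `f`. -/
def Clo (f : M → N) (W : Set M) : Prop :=
  IsClosed W ∧ W ⊆ {x | ¬ Reg f x} ∧ IsClosed ({x | ¬ Reg f x} \ W)

/-- The singular points in `W` can be removed by small modifications near `W`. -/
def Good (f : M → N) (G : N → Set M) (m : ℕ) (W : Set M) : Prop :=
  ∀ ε > 0, ∀ O : Set M, IsOpen O → W ⊆ O →
    ∃ g, Mod f G m ε O g ∧ ∀ x, ¬ Reg g x → ¬ Reg f x ∧ x ∉ W

def Nice (f : M → N) (G : N → Set M) (m : ℕ) (V : Set M) : Prop :=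
  IsOpen V ∧ ∀ W, Clo f W → W ⊆ V → Good f G m W

def Ker (f : M → N) (G : N → Set M) (m : ℕ) : Set M := {x | ∀ V, Nice f G m V → x ∉ V}

lemma isClosed_ker (f : M → N) (G : N → Set M) (m : ℕ) : IsClosed (Ker f G m) := by
  have : Ker f G m = ⋂ V ∈ {V | Nice f G m V}, Vᶜ := by
    ext x
    simp only [Ker, mem_ofPred_eq, mem_iInter, mem_compl_iff]
  rw [this]
  exact isClosed_biInter fun V hV => hV.1.isClosed_compl

lemma nice_reg {f : M → N} {G : N → Set M} {m : ℕ} (ho : ∀ x, (val f x).encard ≤ m)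
    (hG : ∀ x, x ∈ G (f x)) {V : Set M} (hV : IsOpen V) (h : ∀ x ∈ V, Reg f x) :
    Nice f G m V := by
  refine ⟨hV, fun W hW hWV ε hε O _ _ => ⟨f, ⟨fun _ _ => rfl, ho, hG, fun x => ⟨x, ?_, rfl⟩⟩,
    fun x hx => ⟨hx, fun hxW => hx (h x (hWV hxW))⟩⟩⟩
  rwa [dist_self]

lemma nice_seq [CompactSpace M] {f : M → N} {G : N → Set M} {m : ℕ}
    (ho : ∀ x, (val f x).encard ≤ m) (hG : ∀ x, x ∈ G (f x)) :
    ∃ F V : ℕ → Set M, (∀ k, IsClosed (F k) ∧ F k ⊆ V k ∧ Nice f G m (V k)) ∧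
      ∀ x, x ∉ Ker f G m → ∃ k, x ∈ interior (F k) := by
  let ι := {p : Set M × Set M // IsClosed p.1 ∧ p.1 ⊆ p.2 ∧ Nice f G m p.2}
  let p0 : ι := ⟨(∅, ∅), isClosed_empty, Subset.rfl,
    nice_reg ho hG isOpen_empty fun x hx => absurd hx (notMem_empty x)⟩
  obtain ⟨T, hT, hTe⟩ := TopologicalSpace.isOpen_iUnion_countable
    (fun p : ι => interior p.1.1) fun _ => isOpen_interior
  obtain ⟨e, he⟩ := (hT.insert p0).exists_eq_range (insert_nonempty p0 T)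
  refine ⟨fun k => (e k).1.1, fun k => (e k).1.2, fun k => (e k).2, fun x hx => ?_⟩
  have h1 : ∃ V, Nice f G m V ∧ x ∈ V := by
    by_contra hc
    exact hx fun V hV hxV => hc ⟨V, hV, hxV⟩
  obtain ⟨V, hV, hxV⟩ := h1
  obtain ⟨F, hF1, hF2, hF3⟩ := exists_mem_nhds_isClosed_subset (hV.1.mem_nhds hxV)
  have h2 : x ∈ ⋃ p : ι, interior p.1.1 :=
    mem_iUnion.2 ⟨⟨(F, V), hF2, hF3, hV⟩, mem_interior_iff_mem_nhds.2 hF1⟩
  rw [← hTe] at h2
  obtain ⟨p, hp, hxp⟩ := mem_iUnion₂.1 h2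
  have h3 : p ∈ range e := he ▸ mem_insert_of_mem p0 hp
  obtain ⟨k, rfl⟩ := h3
  exact ⟨k, hxp⟩

theorem ker_step [CompactSpace M] {f : M → N} {G : N → Set M} {m : ℕ}
    (ho : ∀ x, (val f x).encard ≤ m) (hG : ∀ x, x ∈ G (f x))
    (hz : ∀ A B : Set M, IsClosed A → IsClosed B → Disjoint A B → ∃ U V : Set M, IsOpen U ∧
      IsOpen V ∧ Disjoint U V ∧ A ⊆ U ∧ B ⊆ V ∧ ∀ x, ¬ Reg f x → x ∈ U ∪ V)
    {W O : Set M} (hW : Clo f W) (hO : IsOpen O) (hWO : W ⊆ O) {ε : ℝ} (hε : 0 < ε) :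
    ∃ g, Mod f G m ε O g ∧ (∀ x ∈ Ker f G m, g x = f x) ∧
      ∀ x, ¬ Reg g x → ¬ Reg f x ∧ (x ∈ W → x ∈ Ker f G m) := by
  classical
  have hS : IsClosed {x | ¬ Reg f x} := (isOpen_reg f).isClosed_compl
  have hTS : ∀ x ∈ Ker f G m, ¬ Reg f x := fun x hx h =>
    hx _ (nice_reg ho hG (isOpen_reg f) fun _ h => h) h
  obtain ⟨O', hO', hW', h'O⟩ := normal_exists_closure_subset hW.1 (hO.sdiff hW.2.2)
    (fun x hx => ⟨hWO hx, fun h => h.2 hx⟩)
  obtain ⟨F, V, hFV, hcov⟩ := nice_seq (f := f) (G := G) ho hG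
  have h1 := fun k => hz (F k) (V k)ᶜ (hFV k).1 (hFV k).2.2.1.isClosed_compl
    (disjoint_compl_right_iff_subset.2 (hFV k).2.1)
  choose U U' a1 a2 a3 a4 a5 a6 using h1
  let Ok : ℕ → Set M := fun k => O' ∩ U k ∩ ⋂ j ∈ Iio k, U' j
  have hOk : ∀ k, IsOpen (Ok k) := fun k =>
    (hO'.inter (a1 k)).inter ((finite_Iio k).isOpen_biInter fun j _ => a2 j)
  have hlt : ∀ j k, j < k → ∀ x ∈ Ok k, x ∉ U j := fun j k hjk x hx h =>
    Set.disjoint_left.1 (a3 j) h (mem_iInter₂.1 hx.2 j hjk)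
  have hdis : ∀ j k x, x ∈ Ok j → x ∈ Ok k → j = k := by
    intro j k x hj hk
    rcases lt_trichotomy j k with h | h | h
    · exact absurd hj.1.2 (hlt j k h x hk)
    · exact h
    · exact absurd hk.1.2 (hlt k j h x hj)
  have hOV : ∀ k, Ok k ⊆ V k := by
    intro k x hx
    by_contra hc
    exact Set.disjoint_left.1 (a3 k) hx.1.2 (a5 k hc)
  have hWc : ∀ k, IsClosed (W ∩ Ok k) := by
    intro k
    have e : W ∩ Ok k = W \ (U' k ∪ ⋃ j ∈ Iio k, U j) := by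
      ext x
      constructor
      · rintro ⟨b1, b2⟩
        refine ⟨b1, ?_⟩
        rintro (h | h)
        · exact Set.disjoint_left.1 (a3 k) b2.1.2 h
        · obtain ⟨j, hj, hx⟩ := mem_iUnion₂.1 h
          exact hlt j k hj x b2 hx
      · rintro ⟨b1, b2⟩
        refine ⟨b1, ⟨hW' b1, ?_⟩, mem_iInter₂.2 fun j hj => ?_⟩
        · exact (a6 k x (hW.2.1 b1)).resolve_right fun h => b2 (Or.inl h)
        · exact (a6 j x (hW.2.1 b1)).resolve_left fun h => b2 (Or.inr (mem_biUnion hj h))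
    rw [e]
    exact hW.1.sdiff ((a2 k).union (isOpen_biUnion fun j _ => a1 j))
  have hClo : ∀ k, Clo f (W ∩ Ok k) := by
    intro k
    refine ⟨hWc k, inter_subset_left.trans hW.2.1, ?_⟩
    rw [sdiff_inter]
    exact hW.2.2.union (hS.sdiff (hOk k))
  have h2 : ∀ k : ℕ, ∃ (Z : Set M) (g : M → N), closure Z ⊆ Ok k ∧
      Mod f G m (min ε (1 / ((k : ℝ) + 1))) Z g ∧ ∀ x, ¬ Reg g x → ¬ Reg f x ∧ x ∉ W ∩ Ok k := by
    intro k
    obtain ⟨Z, b1, b2, b3⟩ := normal_exists_closure_subset (hWc k) (hOk k) inter_subset_right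
    obtain ⟨g, b4, b5⟩ := (hFV k).2.2.2 _ (hClo k) (inter_subset_right.trans (hOV k))
      (min ε (1 / ((k : ℝ) + 1))) (lt_min hε (by positivity)) Z b1 b2
    exact ⟨Z, g, b3, b4, b5⟩
  choose Z gk c1 c2 c3 using h2
  let g : M → N := fun x => if h : ∃ k, x ∈ Ok k then gk h.choose x else f x
  have gin : ∀ k, ∀ x ∈ Ok k, g x = gk k x := by
    intro k x hx
    have h : ∃ k, x ∈ Ok k := ⟨k, hx⟩
    have e : g x = gk h.choose x := dif_pos h
    rw [e, hdis _ _ x h.choose_spec hx]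
  have gout : ∀ x, (¬ ∃ k, x ∈ Ok k) → g x = f x := fun x hx => dif_neg hx
  have gor : ∀ y, g y = f y ∨ ∃ k, y ∈ Z k ∧ g y = gk k y := by
    intro y
    by_cases h : ∃ k, y ∈ Ok k
    · obtain ⟨k, hk⟩ := h
      by_cases hZ : y ∈ Z k
      · exact Or.inr ⟨k, hZ, gin k y hk⟩
      · exact Or.inl ((gin k y hk).trans ((c2 k).1 y hZ))
    · exact Or.inl (gout y h)
  have gev : ∀ k, ∀ x ∈ Ok k, g =ᶠ[𝓝 x] gk k := fun k x hx =>
    mem_of_superset ((hOk k).mem_nhds hx) (gin k)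
  have hav : ∀ x, (¬ ∃ k, x ∈ Ok k) → ∀ K : ℕ, ∀ᶠ y in 𝓝 x, ∀ k ∈ Iic K, y ∉ Z k := by
    intro x hx K
    rw [eventually_all_finite (finite_Iic K)]
    intro k _
    have : (closure (Z k))ᶜ ∈ 𝓝 x :=
      isClosed_closure.isOpen_compl.mem_nhds fun h => hx ⟨k, c1 k h⟩
    exact mem_of_superset this fun y hy h => hy (subset_closure h)
  refine ⟨g, ⟨fun x hx => gout x ?_, fun x => ?_, fun x => ?_, fun x => ?_⟩,
    fun x hx => gout x ?_, fun x hx => ?_⟩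
  · rintro ⟨k, hk⟩
    exact hx (h'O (subset_closure hk.1.1)).1
  · by_cases h : ∃ k, x ∈ Ok k
    · obtain ⟨k, hk⟩ := h
      rw [val_congr (gev k x hk)]
      exact (c2 k).2.1 x
    · refine (encard_le_encard fun n hn => ?_).trans (ho x)
      rw [mem_val, Metric.mem_closure_iff]
      intro δ hδ
      obtain ⟨K, hK⟩ := exists_nat_one_div_lt (half_pos hδ)
      obtain ⟨y, b1, b2, b3⟩ := (Frequently.and_eventually hn
        ((hav x h K).and (ball_mem_nhds x (half_pos hδ)))).exists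
      have b4 : dist x y < δ / 2 := by rw [dist_comm]; exact b3
      rcases gor y with e | ⟨k, hk, e⟩
      · exact ⟨y, e.symm.trans b1, by linarith⟩
      · obtain ⟨z, d1, d2⟩ := (c2 k).2.2.2 y
        have d3 : K < k := not_le.1 fun hh => b2 k hh hk
        have d4 : 1 / ((k : ℝ) + 1) ≤ 1 / ((K : ℝ) + 1) := by
          have : (K : ℝ) ≤ k := by exact_mod_cast d3.le
          exact one_div_le_one_div_of_le (by positivity) (by linarith)
        refine ⟨z, d2.trans (e.symm.trans b1), ?_⟩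
        have d5 := dist_triangle x y z
        have d6 := lt_of_lt_of_le d1 (min_le_right _ _)
        linarith
  · rcases gor x with e | ⟨k, -, e⟩
    · rw [e]; exact hG x
    · rw [e]; exact (c2 k).2.2.1 x
  · rcases gor x with e | ⟨k, -, e⟩
    · exact ⟨x, by rwa [dist_self], e.symm⟩
    · obtain ⟨z, d1, d2⟩ := (c2 k).2.2.2 x
      exact ⟨z, lt_of_lt_of_le d1 (min_le_left _ _), d2.trans e.symm⟩
  · rintro ⟨k, hk⟩
    exact hx _ (hFV k).2.2 (hOV k hk)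
  · by_cases h : ∃ k, x ∈ Ok k
    · obtain ⟨k, hk⟩ := h
      obtain ⟨b1, b2⟩ := c3 k x fun hr => hx (reg_congr (gev k x hk) hr)
      exact ⟨b1, fun hxW => absurd ⟨hxW, hk⟩ b2⟩
    by_cases hT : x ∈ Ker f G m
    · exact ⟨hTS x hT, fun _ => hT⟩
    obtain ⟨j, hj⟩ := hcov x hT
    have b1 : g =ᶠ[𝓝 x] f := by
      filter_upwards [hav x h j, mem_interior_iff_mem_nhds.1 hj] with y d1 d2
      rcases gor y with e | ⟨k, hk, -⟩
      · exact e
      · exact absurd (a4 j d2)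
          (hlt j k (not_le.1 fun hh => d1 k hh hk) y (c1 k (subset_closure hk)))
    have b2 : ¬ Reg f x := fun hr => hx (reg_congr b1 hr)
    refine ⟨b2, fun hxW => absurd ?_ h⟩
    have b3 : ∃ k, x ∈ U k := ⟨j, a4 j (interior_subset hj)⟩
    refine ⟨Nat.find b3, ⟨hW' hxW, Nat.find_spec b3⟩, mem_iInter₂.2 fun i hi => ?_⟩
    exact (a6 i x b2).resolve_left (Nat.find_min b3 hi)

theorem ker_empty [CompactSpace M] [Countable N] {f : M → N} {G : N → Set M} {m : ℕ}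
    (ho : ∀ x, (val f x).encard ≤ m) (hG : ∀ x, x ∈ G (f x)) (hGo : ∀ n, IsOpen (G n))
    (hz : ∀ A B : Set M, IsClosed A → IsClosed B → Disjoint A B → ∃ U V : Set M, IsOpen U ∧
      IsOpen V ∧ Disjoint U V ∧ A ⊆ U ∧ B ⊆ V ∧ ∀ x, ¬ Reg f x → x ∈ U ∪ V) (x0 : M) :
    x0 ∉ Ker f G m := by
  intro hx0
  have hT := isClosed_ker f G m
  have : CompactSpace (Ker f G m) := isCompact_iff_compactSpace.1 hT.isCompact
  have : Nonempty (Ker f G m) := ⟨⟨x0, hx0⟩⟩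
  obtain ⟨n, x1, hx1⟩ := nonempty_interior_of_iUnion_of_closed (X := Ker f G m)
    (f := fun n : N => Subtype.val ⁻¹' closure (Ker f G m ∩ f ⁻¹' {n}))
    (fun n => isClosed_closure.preimage continuous_subtype_val)
    (eq_univ_of_forall fun x => mem_iUnion.2 ⟨f x, subset_closure ⟨x.2, rfl⟩⟩)
  obtain ⟨t, ht1, ht2, ht3⟩ := mem_interior.1 hx1
  obtain ⟨V, hV, rfl⟩ := isOpen_induced_iff.1 ht2
  have hTV : ∀ x ∈ Ker f G m, x ∈ V → x ∈ closure (Ker f G m ∩ f ⁻¹' {n}) :=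
    fun x hx hxV => ht1 (show (⟨x, hx⟩ : Ker f G m) ∈ Subtype.val ⁻¹' V from hxV)
  obtain ⟨x2, b1, b2, b3⟩ := mem_closure_iff.1 (hTV x1 x1.2 ht3) V hV ht3
  have b4 : f x2 = n := b3
  refine b2 (V ∩ G n) ⟨hV.inter (hGo n), fun W hW hWV ε hε O hO hWO => ?_⟩ ⟨b1, b4 ▸ hG x2⟩
  obtain ⟨g, c1, c2, c3⟩ := ker_step ho hG hz hW hO hWO hε
  obtain ⟨g', d1, d2, d3⟩ := absorb g m c1.2.1 n (W := Ker f G m ∩ W)
    (O := (O ∩ G n ∩ thickening ε (f ⁻¹' {n})) \ ({x | ¬ Reg f x} \ W)) (hT.inter hW.1)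
    (((hO.inter (hGo n)).inter isOpen_thickening).sdiff hW.2.2)
    (fun x hx => ⟨⟨⟨hWO hx.2, (hWV hx.2).2⟩, closure_subset_thickening hε _
      (closure_mono inter_subset_right (hTV x hx.1 (hWV hx.2).1))⟩, fun h => h.2 hx.2⟩)
    (fun x hx => mem_val.2 (closure_mono (fun y hy => (c2 y hy.1).trans hy.2)
      (hTV x hx.1 (hWV hx.2).1)))
    (fun x hx hxW => by
      by_contra hc
      obtain ⟨e1, e2⟩ := c3 x hc
      have e3 : x ∈ W := by
        by_contra h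
        exact hx.2 ⟨e1, h⟩
      exact hxW ⟨e2 e3, e3⟩)
  refine ⟨g', ⟨fun x hx => ?_, d2, fun x => ?_, fun x => ?_⟩, fun x hx => ?_⟩
  · rcases d1 x with e | e
    · exact e.trans (c1.1 x hx)
    · exact absurd e.1.1.1.1 hx
  · rcases d1 x with e | e
    · rw [e]; exact c1.2.2.1 x
    · rw [e.2]; exact e.1.1.1.2
  · rcases d1 x with e | e
    · rw [e]; exact c1.2.2.2 x
    · obtain ⟨z, e1, e2⟩ := mem_thickening_iff.1 e.1.1.2
      exact ⟨z, e2, (show f z = n from e1).trans e.2.symm⟩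
  · obtain ⟨e1, e2⟩ := d3 x hx
    obtain ⟨e3, e4⟩ := c3 x e1
    exact ⟨e3, fun h => e2 ⟨e4 h, h⟩⟩

theorem zero_dim [CompactSpace M] [Countable N] {f : M → N} {G : N → Set M} {m : ℕ}
    (ho : ∀ x, (val f x).encard ≤ m) (hG : ∀ x, x ∈ G (f x)) (hGo : ∀ n, IsOpen (G n))
    (hz : ∀ A B : Set M, IsClosed A → IsClosed B → Disjoint A B → ∃ U V : Set M, IsOpen U ∧
      IsOpen V ∧ Disjoint U V ∧ A ⊆ U ∧ B ⊆ V ∧ ∀ x, ¬ Reg f x → x ∈ U ∪ V) :
    ∃ g : M → N, (range g).Finite ∧ (∀ x, (val g x).encard ≤ m) ∧ ∀ x, x ∈ G (g x) := by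
  have hS : IsClosed {x | ¬ Reg f x} := (isOpen_reg f).isClosed_compl
  obtain ⟨g, c1, -, c3⟩ := ker_step ho hG hz (W := {x | ¬ Reg f x}) (O := univ)
    ⟨hS, Subset.rfl, by rw [sdiff_self]; exact isClosed_empty⟩ isOpen_univ (subset_univ _) one_pos
  have h1 : ∀ x, Reg g x := by
    intro x
    by_contra hc
    exact ker_empty ho hG hGo hz x ((c3 x hc).2 (c3 x hc).1)
  choose F e1 e2 using h1
  obtain ⟨t, -, ht⟩ := isCompact_univ.elim_nhds_subcover (fun x => {y | g y ∈ F x})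
    fun x _ => e2 x
  refine ⟨g, (t.finite_toSet.biUnion fun x _ => e1 x).subset ?_, c1.2.1, c1.2.2.1⟩
  rintro _ ⟨y, rfl⟩
  obtain ⟨x, hx, hy⟩ := mem_iUnion₂.1 (ht (mem_univ y))
  exact mem_biUnion hx hy

end Pool.Agent.MP_671186_gt
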