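import Mathlib

set_option autoImplicit false

namespace Pool.Agent.MP_671186_gt

open Set

/-- Large inductive dimension in its partition form: `DimLT 0 S` says that `S` is empty, and
`DimLT (r + 1) S` says that any two disjoint closed sets have disjoint open neighbourhoods
whose union leaves of `S` a set with `DimLT r`. -/
def DimLT {M : Type} [TopologicalSpace M] : ℕ → Set M → Prop
  | 0, S => S = ∅
  | r + 1, S => ∀ A B : Set M, IsClosed A → IsClosed B → Disjoint A B →
      ∃ U V : Set M, IsOpen U ∧ IsOpen V ∧ Disjoint U V ∧ A ⊆ U ∧ B ⊆ V ∧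
        DimLT r (S \ (U ∪ V))

/-- The singular points of `P` on `Q`: the points of `Q` every neighbourhood of which meets,
inside `Q`, infinitely many members of `P`. -/
def Sing {M : Type} [TopologicalSpace M] (Q : Set M) (P : Set (Set M)) : Set M :=
  {x ∈ Q | ∀ N ∈ nhds x, {X ∈ P | (X ∩ Q ∩ N).Nonempty}.Infinite}

end Pool.Agent.MP_671186_gt
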