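import Pool.Agent.Mg.F671186.Gf0de84
import Pool.Agent.MP_671186_gt.Sing
import Pool.Agent.MP_671186_gt.SKer

set_option autoImplicit false

namespace Pool.Agent.MP_671186_gt

open Set Filter Topology Metric

/-- The nearest point retraction onto the cube. -/
def clamp {d : ℕ} (α : Fin d → ℝ) (D : ℝ) (x : Fin d → ℝ) : Fin d → ℝ :=
  fun i => max (α i) (min (x i) (α i + D))

lemma continuous_clamp {d : ℕ} (α : Fin d → ℝ) (D : ℝ) : Continuous (clamp α D) := by
  unfold clamp; fun_prop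

lemma clamp_mem {d : ℕ} (α : Fin d → ℝ) {D : ℝ} (hD : 0 < D) (x : Fin d → ℝ) :
    clamp α D x ∈ cube α D :=
  fun i => ⟨le_max_left _ _, max_le (by linarith) (min_le_right _ _)⟩

lemma clamp_low {d : ℕ} (α : Fin d → ℝ) {D : ℝ} {x : Fin d → ℝ} {i : Fin d}
    (h : x i ≤ α i) : clamp α D x ∈ plane α 0 i := by
  show max (α i) (min (x i) (α i + D)) = α i + 0
  rw [add_zero]
  exact max_eq_left ((min_le_left _ _).trans h)

lemma clamp_high {d : ℕ} (α : Fin d → ℝ) {D : ℝ} (hD : 0 < D) {x : Fin d → ℝ} {i : Fin d}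
    (h : α i + D ≤ x i) : clamp α D x ∈ plane α D i := by
  show max (α i) (min (x i) (α i + D)) = α i + D
  rw [min_eq_right h]
  exact max_eq_right (by linarith)

theorem sing_base {d : ℕ} {D : ℝ} (hD : 0 < D) (α : Fin d → ℝ) (P : Set (Set (Fin d → ℝ)))
    (h1 : Setoid.IsPartition P) (h2 : ∀ X ∈ P, ∀ x ∈ X, ∀ y ∈ X, dist x y < D)
    (h3 : {X ∈ P | (X ∩ cube α D).Nonempty}.Countable) (m : ℕ)
    (ho : ∀ p, {X ∈ P | p ∈ closure X}.encard ≤ m) {L : Set (Fin d → ℝ)} (hL : IsClosed L)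
    (hLQ : L ⊆ cube α D) (hS : DimLT 1 (Sing (cube α D) P ∩ L)) :
    Cov (plane (fun i => α i - 1) 0) (plane (fun i => α i - 1) (D + 2)) m (clamp α D ⁻¹' L) := by
  have : Countable {X ∈ P | (X ∩ cube α D).Nonempty} := h3.to_subtype
  have : CompactSpace L :=
    isCompact_iff_compactSpace.1 ((isCompact_cube α D).of_isClosed_subset hL hLQ)
  have hf : ∀ x : L, ∃ n : {X ∈ P | (X ∩ cube α D).Nonempty}, x.1 ∈ n.1 := by
    intro x
    obtain ⟨X, ⟨hX, hxX⟩, -⟩ := h1.2 x.1
    exact ⟨⟨X, hX, x.1, hxX, hLQ x.2⟩, hxX⟩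
  choose f hf using hf
  let G : {X ∈ P | (X ∩ cube α D).Nonempty} → Set L := fun n =>
    ⋂ p : Fin d × Bool, {x | x.1 ∈ plane α (cond p.2 D 0) p.1 →
      (n.1 ∩ plane α (cond p.2 D 0) p.1).Nonempty}
  refine (zero_dim (f := f) (G := G) (m := m) ?_ ?_ ?_ ?_).elim fun g hg => ?_
  rotate_right
  · obtain ⟨g1, g2, g3⟩ := hg
    let E : {X ∈ P | (X ∩ cube α D).Nonempty} → Set (Fin d → ℝ) := fun n =>
      {x | ∃ h : clamp α D x ∈ L, g ⟨_, h⟩ = n}
    refine cov_mono _ (kill (isClosed_plane _ 0) (isClosed_plane _ (D + 2))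
      (disjoint_plane _ (by linarith)) m (fun n => closure (E n)) (fun _ => isClosed_closure)
      ?_ ?_ ?_) ?_
    · intro δ _
      refine g1.subset fun n hn => ?_
      by_contra hc
      refine hn fun x hx => ?_
      obtain ⟨y, hy, e⟩ := closure_nonempty_iff.1 ⟨x, hx⟩
      exact absurd ⟨_, e⟩ hc
    · rintro i n ⟨⟨x, hx, hxA⟩, ⟨y, hy, hyB⟩⟩
      have e1 : x i = α i - 1 + 0 := hxA
      have e2 : y i = α i - 1 + (D + 2) := hyB
      obtain ⟨x', a1, a2, a3⟩ := mem_closure_iff.1 hx {z | z i < α i}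
        (isOpen_lt (continuous_apply i) continuous_const) (show x i < α i by linarith)
      obtain ⟨y', b1, b2, b3⟩ := mem_closure_iff.1 hy {z | α i + D < z i}
        (isOpen_lt continuous_const (continuous_apply i)) (show α i + D < y i by linarith)
      have a4 := mem_iInter.1 (g3 ⟨_, a2⟩) (i, false)
      have b4 := mem_iInter.1 (g3 ⟨_, b2⟩) (i, true)
      rw [a3] at a4
      rw [b3] at b4
      obtain ⟨u, u1, u2⟩ := a4 (clamp_low α (le_of_lt a1))
      obtain ⟨v, v1, v2⟩ := b4 (clamp_high α hD (le_of_lt b1))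
      have c1 := (dist_le_pi_dist u v i).trans_lt (h2 n.1 n.2.1 u u1 v v1)
      have c2 : u i = α i + 0 := u2
      have c3 : v i = α i + D := v2
      rw [c2, c3, Real.dist_eq, show α i + 0 - (α i + D) = -D by ring, abs_neg,
        abs_of_pos hD] at c1
      exact lt_irrefl _ c1
    · intro x
      by_cases hx : clamp α D x ∈ L
      · refine (encard_le_encard fun n hn => ?_).trans (g2 ⟨_, hx⟩)
        rw [mem_val, closure_subtype]
        have a1 : x ∈ closure (E n) := hn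
        exact map_mem_closure (f := clamp α D) (x := x) (continuous_clamp α D) a1
          fun y hy => ⟨⟨_, hy.1⟩, hy.2, rfl⟩
      · have : {n | x ∈ closure (E n)} = ∅ := by
          refine eq_empty_of_forall_notMem fun n hn => hx ?_
          exact closure_minimal (t := clamp α D ⁻¹' L) (fun y hy => hy.1)
            (hL.preimage (continuous_clamp α D)) hn
        rw [this]; simp
    · intro x hx
      exact mem_iUnion.2 ⟨g ⟨_, hx⟩, subset_closure ⟨hx, rfl⟩⟩
  · intro x
    refine le_trans (encard_le_encard_of_injOn (f := Subtype.val) (fun n hn => ?_)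
      Subtype.val_injective.injOn) (ho x.1)
    exact ⟨n.2.1, map_mem_closure continuous_subtype_val (mem_val.1 hn)
      fun y hy => (show f y = n from hy) ▸ hf y⟩
  · intro x
    exact mem_iInter.2 fun p hp => ⟨x.1, hf x, hp⟩
  · intro n
    refine isOpen_iInter_of_finite fun p => ?_
    by_cases h : (n.1 ∩ plane α (cond p.2 D 0) p.1).Nonempty
    · simp only [h, implies_true, ofPred_true, isOpen_univ]
    · simp only [h, imp_false]
      exact ((isClosed_plane α _ p.1).preimage continuous_subtype_val).isOpen_compl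
  · intro A B hA hB hAB
    obtain ⟨U, V, a1, a2, a3, a4, a5, a6⟩ := hS (Subtype.val '' A) (Subtype.val '' B)
      (hL.isClosedMap_subtype_val A hA) (hL.isClosedMap_subtype_val B hB)
      (disjoint_image_of_injective Subtype.val_injective hAB)
    refine ⟨Subtype.val ⁻¹' U, Subtype.val ⁻¹' V, a1.preimage continuous_subtype_val,
      a2.preimage continuous_subtype_val, a3.preimage _, image_subset_iff.1 a4,
      image_subset_iff.1 a5, fun x hx => ?_⟩
    have a7 : (Sing (cube α D) P ∩ L) \ (U ∪ V) = ∅ := a6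
    refine sdiff_eq_empty.1 a7 ⟨⟨hLQ x.2, fun W hW hfin => hx ⟨Subtype.val ⁻¹' _,
      hfin.preimage Subtype.val_injective.injOn, ?_⟩⟩, x.2⟩
    filter_upwards [continuous_subtype_val.continuousAt.preimage_mem_nhds hW] with y hy
    exact ⟨(f y).2.1, y.1, ⟨hf y, hLQ y.2⟩, hy⟩

theorem sing_cov {d : ℕ} {D : ℝ} (hD : 0 < D) (α : Fin d → ℝ) (P : Set (Set (Fin d → ℝ)))
    (h1 : Setoid.IsPartition P) (h2 : ∀ X ∈ P, ∀ x ∈ X, ∀ y ∈ X, dist x y < D)
    (h3 : {X ∈ P | (X ∩ cube α D).Nonempty}.Countable) (m : ℕ)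
    (ho : ∀ p, {X ∈ P | p ∈ closure X}.encard ≤ m) : ∀ (s : ℕ) {L : Set (Fin d → ℝ)},
    IsClosed L → L ⊆ cube α D → DimLT (s + 1) (Sing (cube α D) P ∩ L) →
    Cov (plane (fun i => α i - 1) 0) (plane (fun i => α i - 1) (D + 2)) (m + s)
      (clamp α D ⁻¹' L)
  | 0, _, hL, hLQ, hS => sing_base hD α P h1 h2 h3 m ho hL hLQ hS
  | s + 1, L, hL, hLQ, hS => by
      intro i
      obtain ⟨U, V, a1, a2, a3, a4, a5, a6⟩ := hS _ _ (isClosed_plane α 0 i)
        (isClosed_plane α D i) (disjoint_plane α hD i)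
      rw [inter_sdiff_assoc] at a6
      refine ⟨clamp α D ⁻¹' U, clamp α D ⁻¹' V, a1.preimage (continuous_clamp α D),
        a2.preimage (continuous_clamp α D), a3.preimage _, fun x hx => a4 (clamp_low α ?_),
        fun x hx => a5 (clamp_high α hD ?_),
        sing_cov hD α P h1 h2 h3 m ho s (hL.sdiff (a1.union a2)) (sdiff_subset.trans hLQ) a6⟩
      · have e : x i = α i - 1 + 0 := hx
        linarith
      · have e : x i = α i - 1 + (D + 2) := hx
        linarith

theorem sing_lower {d s : ℕ} (hs : s ≤ d) {D : ℝ} (hD : 0 < D) (α : Fin d → ℝ)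
    (P : Set (Set (Fin d → ℝ))) (h1 : Setoid.IsPartition P)
    (h2 : ∀ X ∈ P, ∀ x ∈ X, ∀ y ∈ X, dist x y < D)
    (h3 : {X ∈ P | (X ∩ cube α D).Nonempty}.Countable)
    (h4 : DimLT (s + 1) (Sing (cube α D) P)) :
    ∃ p : Fin d → ℝ, ((d - s + 1 : ℕ) : ℕ∞) ≤ {X ∈ P | p ∈ closure X}.encard := by
  by_contra hcon
  have ho : ∀ p, {X ∈ P | p ∈ closure X}.encard ≤ ((d - s : ℕ) : ℕ∞) := by
    intro p
    have a : {X ∈ P | p ∈ closure X}.encard < ((d - s + 1 : ℕ) : ℕ∞) :=
      not_le.1 fun h => hcon ⟨p, h⟩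
    rw [Nat.cast_add, Nat.cast_one] at a
    exact Order.le_of_lt_add_one a
  have e : Sing (cube α D) P ∩ cube α D = Sing (cube α D) P :=
    inter_eq_left.2 (sep_subset _ _)
  refine not_cov (fun i => α i - 1) (D := D + 2) (by linarith) (r := d - s + s) (by omega)
    (cov_mono _ (sing_cov hD α P h1 h2 h3 _ ho s (isCompact_cube α D).isClosed Subset.rfl
      (e.symm ▸ h4)) fun x _ => clamp_mem α hD x)

end Pool.Agent.MP_671186_gt
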