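import Pool.Agent.MP_671186_gt.SUp
import Pool.Agent.MP_671186_gt.SFlat
import Pool.Agent.MP_671186_gt.SCol

set_option autoImplicit false

namespace Pool.Agent.MP_671186_gt

open Set Filter Topology Metric

theorem sing_upper {d s : ℕ} (hs : s < d) {D : ℝ} (hD : 0 < D) :
    ∃ P : Set (Set (Fin d → ℝ)), Setoid.IsPartition P ∧ P.Countable ∧
      (∀ X ∈ P, ∀ x ∈ X, ∀ y ∈ X, dist x y < D) ∧
      (∀ α, DimLT (s + 1) (Sing (cube α D) P)) ∧
      ∀ p : Fin d → ℝ, {X ∈ P | p ∈ closure X}.encard ≤ ((d - s + 1 : ℕ) : ℕ∞) := by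
  obtain ⟨u, col, u1, u2, u3, u4⟩ := su_col (d := d) (r := d - s) (by omega) (by omega)
  obtain ⟨lab0, l1, l2, l3⟩ := su_label (r := d - s) (by omega) u col u1 u2 u4
  set c : ℝ := D / 2 with hc
  have hc0 : 0 < c := by positivity
  let sc : (Fin d → ℝ) → Fin d → ℝ := fun x l => x l / c
  have hsc : Continuous sc := by fun_prop
  let lab := fun x => lab0 (sc x)
  have hmem : ∀ X ∈ (Setoid.ker lab).classes, ∃ z, X = lab ⁻¹' {lab z} := by
    rintro X ⟨z, rfl⟩
    exact ⟨z, rfl⟩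
  refine ⟨(Setoid.ker lab).classes, Setoid.isPartition_classes _, ?_, ?_, fun α => ?_, fun p => ?_⟩
  · refine (countable_range fun l => lab ⁻¹' {l}).mono fun X hX => ?_
    obtain ⟨z, rfl⟩ := hmem X hX
    exact ⟨lab z, rfl⟩
  · intro X hX x hx y hy
    obtain ⟨z, rfl⟩ := hmem X hX
    have hx' : lab x = lab z := hx
    have hy' : lab y = lab z := hy
    rw [dist_pi_lt_iff hD]
    intro i
    have h1 : |x i / c - y i / c| < 2 := l1 _ _ (hx'.trans hy'.symm) i
    rw [← sub_div, abs_div, abs_of_pos hc0, div_lt_iff₀ hc0] at h1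
    rw [Real.dist_eq]
    linarith
  · refine dimLT_mono _ (dimLT_flat (cube α D) (isCompact_cube α D) (s + 1) (d - s) (by omega)
      (range fun z : ℤ => c * z) (countable_range _)) fun x hx => ⟨hx.1, ?_⟩
    have h0 : u (sc x) = 0 := by
      by_contra hne
      obtain ⟨N, hN, hfin⟩ := l3 (sc x) (lt_of_le_of_ne (u2 _).1 (Ne.symm hne))
      refine hx.2 (sc ⁻¹' N) (hsc.continuousAt.preimage_mem_nhds hN)
        ((hfin.image fun l => lab ⁻¹' {l}).subset ?_)
      rintro X ⟨hX, y, ⟨hy, -⟩, hyN⟩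
      obtain ⟨z, rfl⟩ := hmem X hX
      have hy' : lab y = lab z := hy
      exact ⟨lab z, ⟨sc y, hyN, hy'⟩, rfl⟩
    obtain ⟨J, hJ, hz⟩ := u3 _ h0
    refine ⟨J, hJ, fun i hi => ?_⟩
    obtain ⟨z, e⟩ := hz i hi
    have e' : x i / c = z := e
    exact ⟨z, by rw [div_eq_iff hc0.ne'] at e'; rw [e', mul_comm]⟩
  · refine le_trans (encard_le_encard ?_)
      ((encard_image_le (fun l => lab ⁻¹' {l}) _).trans (l2 (sc p)))
    rintro X ⟨hX, hp⟩
    obtain ⟨z, rfl⟩ := hmem X hX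
    exact ⟨lab z, map_mem_closure hsc hp fun y hy => hy, rfl⟩

end Pool.Agent.MP_671186_gt
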