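import Pool.Agent.Mg.F671186.Gf0de84

set_option autoImplicit false

namespace Pool.Agent.MP_671186_gt

open Set Filter Topology

noncomputable def su_w {d : ℕ} (r : ℕ) (u : (Fin d → ℝ) → ℝ) (k : ℕ) (x : Fin d → ℝ) :
    Fin d → ℤ := fun i => ⌊x i - u x * (2 * k + 1) / (2 * r)⌋

theorem su_theta {r k : ℕ} (hk : k < r) {t : ℝ} (h0 : 0 ≤ t) (h1 : t ≤ 1 / 2) :
    0 ≤ t * (2 * k + 1) / (2 * r) ∧ t * (2 * k + 1) / (2 * r) ≤ 1 / 2 := by
  have hr : (0 : ℝ) < r := by exact_mod_cast (by omega : 0 < r)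
  have hk' : (k : ℝ) + 1 ≤ r := by exact_mod_cast hk
  refine ⟨by positivity, ?_⟩
  rw [div_le_iff₀ (by positivity)]
  have : (0 : ℝ) ≤ k := Nat.cast_nonneg k
  nlinarith

theorem su_inr {d r : ℕ} {u : (Fin d → ℝ) → ℝ} {col : (Fin d → ℝ) → ℕ} (hu : Continuous u)
    (hc : ∀ x, 0 < u x → col x < r ∧ ∀ (i : Fin d) (z : ℤ),
      ¬ (u x * col x / r < x i - z ∧ x i - z < u x * (col x + 1) / r))
    {p : Fin d → ℝ} {k v : ℕ} {w : Fin d → ℤ}
    (hf : ∃ᶠ x in 𝓝 p, 0 < u x ∧ col x = k ∧ su_w r u k x = w ∧ (⌊1 / u x⌋₊ + k) / r = v) :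
    0 < u p ∧ k < r ∧ w = su_w r u k p ∧
      (v = (⌊1 / u p⌋₊ + k) / r ∨ v = (⌊1 / u p⌋₊ - 1 + k) / r) := by
  have hk : k < r := by
    obtain ⟨x, h1, h2, -⟩ := hf.exists
    exact h2 ▸ (hc x h1).1
  have hr : (0 : ℝ) < r := by exact_mod_cast (by omega : 0 < r)
  have hp : 0 < u p := by
    by_contra n
    have e : u p < 1 / (((v + 1) * r : ℕ) : ℝ) :=
      (not_lt.1 n).trans_lt (by push_cast; positivity)
    obtain ⟨x, ⟨h1, -, -, h4⟩, h5⟩ :=
      (hf.and_eventually (hu.continuousAt.eventually_lt continuousAt_const e)).exists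
    have h6 : (v + 1) * r ≤ ⌊1 / u x⌋₊ :=
      Nat.le_floor ((lt_one_div h1 (by push_cast; positivity)).1 h5).le
    have h7 : v + 1 ≤ (⌊1 / u x⌋₊ + k) / r := (Nat.le_div_iff_mul_le (by omega)).2 (by omega)
    omega
  have hF : ∀ (i : Fin d) (z : ℤ), ¬ (u p * k / r < p i - z ∧ p i - z < u p * (k + 1) / r) := by
    rintro i z ⟨a, b⟩
    have a' : ∀ᶠ x in 𝓝 p, u x * k / r < x i - z :=
      ContinuousAt.eventually_lt (by fun_prop) (Continuous.continuousAt (by fun_prop)) a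
    have b' : ∀ᶠ x in 𝓝 p, x i - z < u x * (k + 1) / r :=
      ContinuousAt.eventually_lt (Continuous.continuousAt (by fun_prop)) (by fun_prop) b
    obtain ⟨x, ⟨h1, h2, -⟩, h3⟩ := (hf.and_eventually (a'.and b')).exists
    exact (hc x h1).2 i z (h2 ▸ h3)
  have hw : ∀ᶠ x in 𝓝 p, ∀ i, su_w r u k x i = su_w r u k p i := by
    refine eventually_all.2 fun i => ?_
    have a : (su_w r u k p i : ℝ) < p i - u p * (2 * k + 1) / (2 * r) := by
      refine lt_of_le_of_ne (Int.floor_le _) fun e => hF i (su_w r u k p i) ?_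
      have e' : p i - su_w r u k p i = u p * (2 * k + 1) / (2 * r) := by linarith
      rw [e', div_lt_div_iff₀ hr (by positivity), div_lt_div_iff₀ (by positivity) hr]
      have := mul_pos hp hr
      constructor <;> nlinarith
    have b : p i - u p * (2 * k + 1) / (2 * r) < su_w r u k p i + 1 := Int.lt_floor_add_one _
    have a' : ∀ᶠ x in 𝓝 p, (su_w r u k p i : ℝ) < x i - u x * (2 * k + 1) / (2 * r) :=
      ContinuousAt.eventually_lt (by fun_prop) (by fun_prop) a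
    have b' : ∀ᶠ x in 𝓝 p, x i - u x * (2 * k + 1) / (2 * r) < su_w r u k p i + 1 :=
      ContinuousAt.eventually_lt (by fun_prop) (by fun_prop) b
    filter_upwards [a', b'] with x h1 h2
    exact Int.floor_eq_iff.2 ⟨h1.le, h2⟩
  have hi : ContinuousAt (fun x => 1 / u x) p := continuousAt_const.div hu.continuousAt hp.ne'
  have s1 : ∀ᶠ x in 𝓝 p, 1 / u x < ⌊1 / u p⌋₊ + 1 :=
    hi.eventually_lt continuousAt_const (Nat.lt_floor_add_one _)
  have s2 : ∀ᶠ x in 𝓝 p, (⌊1 / u p⌋₊ : ℝ) - 1 < 1 / u x :=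
    continuousAt_const.eventually_lt hi (by
      have : (⌊1 / u p⌋₊ : ℝ) ≤ 1 / u p := Nat.floor_le (by positivity)
      linarith)
  obtain ⟨x, ⟨h1, -, h3, h4⟩, h5, h6, h7⟩ := (hf.and_eventually (hw.and (s1.and s2))).exists
  refine ⟨hp, hk, h3 ▸ funext h5, ?_⟩
  have t1 : ⌊1 / u x⌋₊ < ⌊1 / u p⌋₊ + 1 :=
    (Nat.floor_lt (by positivity)).2 (by exact_mod_cast h6)
  have t2 : ⌊1 / u p⌋₊ < ⌊1 / u x⌋₊ + 2 := by
    have := Nat.lt_floor_add_one (1 / u x)
    exact_mod_cast (by linarith : (⌊1 / u p⌋₊ : ℝ) < ⌊1 / u x⌋₊ + 2)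
  rcases (by omega : ⌊1 / u x⌋₊ = ⌊1 / u p⌋₊ ∨ ⌊1 / u x⌋₊ = ⌊1 / u p⌋₊ - 1) with e | e
  · exact Or.inl (by rw [← e, h4])
  · exact Or.inr (by rw [← e, h4])

theorem su_label {d r : ℕ} (hr : 1 ≤ r) (u : (Fin d → ℝ) → ℝ) (col : (Fin d → ℝ) → ℕ)
    (hu : Continuous u) (hb : ∀ x, 0 ≤ u x ∧ u x ≤ 1 / 2)
    (hc : ∀ x, 0 < u x → col x < r ∧ ∀ (i : Fin d) (z : ℤ),
      ¬ (u x * col x / r < x i - z ∧ x i - z < u x * (col x + 1) / r)) :
    ∃ lab : (Fin d → ℝ) → ((Fin d → ℤ) × (Fin d → Bool) × ℕ) ⊕ (ℕ × (Fin d → ℤ) × ℕ),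
      (∀ x y, lab x = lab y → ∀ i, |x i - y i| < 2) ∧
      (∀ p, {k | p ∈ closure (lab ⁻¹' {k})}.encard ≤ ((r + 1 : ℕ) : ℕ∞)) ∧
      ∀ p : Fin d → ℝ, 0 < u p → ∃ N ∈ nhds p, (lab '' N).Finite := by
  classical
  obtain ⟨lab, h0, h1⟩ : ∃ lab : (Fin d → ℝ) →
      ((Fin d → ℤ) × (Fin d → Bool) × ℕ) ⊕ (ℕ × (Fin d → ℤ) × ℕ),
      (∀ x, u x = 0 → lab x = .inl (label x)) ∧ ∀ x, 0 < u x →
        lab x = .inr (col x, su_w r u (col x) x, (⌊1 / u x⌋₊ + col x) / r) :=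
    ⟨fun x => if u x = 0 then .inl (label x) else
      .inr (col x, su_w r u (col x) x, (⌊1 / u x⌋₊ + col x) / r),
      fun x h => if_pos h, fun x h => if_neg h.ne'⟩
  have hl : ∀ x a, lab x = .inl a → u x = 0 ∧ label x = a := fun x a h => by
    rcases (hb x).1.eq_or_lt with e | e
    · exact ⟨e.symm, Sum.inl.inj ((h0 x e.symm).symm.trans h)⟩
    · rw [h1 x e] at h
      cases h
  have hr' : ∀ x k w v, lab x = .inr (k, w, v) → 0 < u x ∧ col x = k ∧ su_w r u k x = w ∧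
      (⌊1 / u x⌋₊ + k) / r = v := fun x k w v h => by
    rcases (hb x).1.eq_or_lt with e | e
    · rw [h0 x e.symm] at h
      cases h
    · rw [h1 x e] at h
      cases h
      exact ⟨e, rfl, rfl, rfl⟩
  have cl : ∀ p a, p ∈ closure (lab ⁻¹' {.inl a}) → u p = 0 ∧ p ∈ hull a.1 a.2.1 a.2.2 :=
    fun p a h => closure_minimal (t := {x | u x = 0} ∩ hull a.1 a.2.1 a.2.2) (fun x hx => by
      obtain ⟨e1, rfl⟩ := hl x a hx
      exact ⟨e1, mem_hull_of_label x⟩)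
      ((isClosed_eq hu continuous_const).inter (isClosed_hull _ _ _)) h
  have cr : ∀ p k w v, p ∈ closure (lab ⁻¹' {.inr (k, w, v)}) → _ := fun p k w v h =>
    su_inr hu hc ((mem_closure_iff_frequently.1 h).mono fun x hx => hr' x k w v hx)
  refine ⟨lab, fun x y h i => ?_, fun p => ?_, fun p hp => ?_⟩
  · rcases e : lab y with a | ⟨k, w, v⟩
    · have e1 : corner x = corner y :=
        congrArg Prod.fst ((hl x a (h.trans e)).2.trans (hl y a e).2.symm)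
      exact (Int.abs_sub_lt_one_of_floor_eq_floor (congrFun e1 i)).trans one_lt_two
    · obtain ⟨a1, a2, a3, -⟩ := hr' x k w v (h.trans e)
      obtain ⟨-, -, b3, -⟩ := hr' y k w v e
      have hk : k < r := a2 ▸ (hc x a1).1
      have c1 := abs_lt.1 (Int.abs_sub_lt_one_of_floor_eq_floor (congrFun (a3.trans b3.symm) i))
      have c2 := su_theta hk (hb x).1 (hb x).2
      have c3 := su_theta hk (hb y).1 (hb y).2
      rw [abs_lt]
      constructor <;> linarith [c1.1, c1.2, c2.1, c2.2, c3.1, c3.2]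
  · rcases (hb p).1.eq_or_lt with e | e
    · refine le_trans (encard_le_encard (t := {.inl (corner p, frozen p, ⌊1 / depth p⌋₊),
        .inl (corner p, frozen p, ⌊1 / depth p⌋₊ - 1)}) ?_) ((encard_insert_le _ _).trans ?_)
      · rintro (⟨a, s, k⟩ | ⟨k, w, v⟩) h
        · obtain ⟨rfl, rfl, e3⟩ := label_of_mem_hull (cl p _ h).2
          rcases e3 with e3 | e3
          · exact Or.inl (congrArg (fun t => Sum.inl (corner p, frozen p, t)) e3)
          · exact Or.inr (congrArg (fun t => Sum.inl (corner p, frozen p, t)) e3)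
        · exact absurd e (cr p k w v h).1.ne
      · rw [encard_singleton]
        exact_mod_cast (by omega : 1 + 1 ≤ r + 1)
    · refine le_trans (encard_le_encard ?_) ((encard_image_le
        (fun t : ℕ × ℕ => Sum.inr (t.1, su_w r u t.1 p, t.2)) _).trans (stagger r ⌊1 / u p⌋₊))
      rintro (a | ⟨k, w, v⟩) h
      · exact absurd (cl p a h).1 e.ne'
      · obtain ⟨-, a2, rfl, a4⟩ := cr p k w v h
        exact ⟨(k, v), ⟨a2, a4⟩, rfl⟩
  · refine ⟨{x | u p / 2 < u x} ∩ Metric.ball p 1, inter_mem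
      ((isOpen_lt continuous_const hu).mem_nhds (half_lt_self hp)) (Metric.ball_mem_nhds p one_pos),
      (((finite_Iio r).prod ((finite_Icc (fun i => ⌊p i - 2⌋) fun i => ⌊p i + 1⌋).prod
        (finite_Iic (⌊1 / (u p / 2)⌋₊ + r)))).image Sum.inr).subset ?_⟩
    rintro _ ⟨x, ⟨a1, a2⟩, rfl⟩
    have a3 : 0 < u x := (half_pos hp).trans a1
    have a4 := (hc x a3).1
    have a5 := su_theta a4 (hb x).1 (hb x).2
    have a6 : ∀ i, |x i - p i| < 1 := fun i => (dist_le_pi_dist x p i).trans_lt a2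
    have a7 : ⌊1 / u x⌋₊ ≤ ⌊1 / (u p / 2)⌋₊ :=
      Nat.floor_mono (one_div_le_one_div_of_le (half_pos hp) (le_of_lt a1))
    refine ⟨(col x, su_w r u (col x) x, (⌊1 / u x⌋₊ + col x) / r),
      ⟨a4, ⟨fun i => Int.floor_mono ?_, fun i => Int.floor_mono ?_⟩, ?_⟩, (h1 x a3).symm⟩
    · linarith [(abs_lt.1 (a6 i)).1, a5.2]
    · linarith [(abs_lt.1 (a6 i)).2, a5.1]
    · exact (Nat.div_le_self _ _).trans (add_le_add a7 a4.le)

end Pool.Agent.MP_671186_gt
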