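import Mathlib

set_option autoImplicit false

namespace Pool.Agent.MP_671186_gt

open Set

/-- `S` is covered by finitely many closed sets of diameter at most `δ`, every point lying in
at most `k + 1` of them. -/
def Thin {M : Type} [MetricSpace M] (k : ℕ) (δ : ℝ) (S : Set M) : Prop :=
  ∃ F : Set (Set M), F.Finite ∧ (∀ V ∈ F, IsClosed V ∧ ∀ x ∈ V, ∀ y ∈ V, dist x y ≤ δ) ∧
    S ⊆ ⋃₀ F ∧ ∀ x : M, {V ∈ F | x ∈ V}.encard ≤ k + 1

/-- The cube `α + [0, D]^d`. -/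
def cube {d : ℕ} (α : Fin d → ℝ) (D : ℝ) : Set (Fin d → ℝ) :=
  {x | ∀ i, α i ≤ x i ∧ x i ≤ α i + D}

/-- `P` is a partition whose members have strict pairwise bound `D`, the cube `α + [0, D]^d`
meets countably many members, the overlaps (common part in the cube of the closures of two
distinct members) have strict pairwise bound `D`, and at each scale `δ` the overlaps of all but
finitely many pairs of distinct members meeting the cube are thin. -/
def Adm {d : ℕ} (k : ℕ) (D : ℝ) (α : Fin d → ℝ) (P : Set (Set (Fin d → ℝ))) : Prop :=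
  Setoid.IsPartition P ∧
  (∀ X ∈ P, ∀ x ∈ X, ∀ y ∈ X, dist x y < D) ∧
  {X ∈ P | (X ∩ cube α D).Nonempty}.Countable ∧
  (∀ X ∈ P, ∀ Y ∈ P, X ≠ Y → ∀ x ∈ closure X ∩ closure Y ∩ cube α D,
    ∀ y ∈ closure X ∩ closure Y ∩ cube α D, dist x y < D) ∧
  ∀ δ > 0, {p : Set (Fin d → ℝ) × Set (Fin d → ℝ) | p.1 ∈ P ∧ p.2 ∈ P ∧ p.1 ≠ p.2 ∧
    (p.1 ∩ cube α D).Nonempty ∧ (p.2 ∩ cube α D).Nonempty ∧
    ¬ Thin k δ (closure p.1 ∩ closure p.2 ∩ cube α D)}.Finite

end Pool.Agent.MP_671186_gt
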